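import Pool.Agent.Helper43.GH.Defs

/-!
Project GH, block M3: for `z` in `KK` the square `z * z` commutes with `w * [T, E₀ y x E₀] * w'`.
-/

set_option linter.unusedSectionVars false
set_option linter.unusedVariables false
set_option maxHeartbeats 1000000

open Matrix Module

namespace GH

open MH

variable {n : Type*} [Fintype n] [DecidableEq n] {L : Submodule ℂ (Matrix n n ℂ)} {h : Matrix n n ℂ}
  {E : ℝ → Matrix n n ℂ} {Λ : Finset ℝ}

private lemma hE74 (S : Spec h E Λ) : h * E 0 = 0 := by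
  rw [S.h_mul]
  simp

private lemma Eh74 (S : Spec h E Λ) : E 0 * h = 0 := by
  rw [S.mul_h]
  simp

private lemma ee74 (S : Spec h E Λ) : E 0 * E 0 = E 0 := by
  rw [S.mul, if_pos rfl]

private lemma EE74 (S : Spec h E Λ) {ν : ℝ} (hν : ν ≠ 0) {x : Matrix n n ℂ} (hx : x ∈ Ld L h ν) :
    E 0 * x * E 0 = 0 := by
  have h1 := S.sandwich x 0 0
  rw [hx.2, mul_smul_comm, smul_mul_assoc, sub_self, zero_smul] at h1
  rcases smul_eq_zero.mp h1 with h2 | h2
  · exfalso
    apply hν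
    exact_mod_cast h2
  · exact h2

/-- the pairs `(u, v)` of the double algebra -/
private structure Pr74 (L : Submodule ℂ (Matrix n n ℂ)) (h : Matrix n n ℂ) (E : ℝ → Matrix n n ℂ)
    (T u v : Matrix n n ℂ) : Prop where
  cu : u * E 0 = E 0 * u
  cv : v * E 0 = E 0 * v
  tu : T * u = u * T
  tv : T * v = v * T
  mem : ∀ ν : ℝ, ν ≠ 0 → ∀ x ∈ Ld L h ν, x * (E 0 * u) + v * E 0 * x ∈ L

variable {T : Matrix n n ℂ}

private lemma mem74 (G : Gr L h E Λ) {u v : Matrix n n ℂ} (P : Pr74 L h E T u v) {ν : ℝ} (hν : ν ≠ 0)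
    {x : Matrix n n ℂ} (hx : x ∈ Ld L h ν) : x * (E 0 * u) + v * E 0 * x ∈ Ld L h ν := by
  refine ⟨P.mem ν hν x hx, ?_⟩
  have e1 : E 0 * u * h = 0 := by rw [← P.cu, mul_assoc, Eh74 G.spec, mul_zero]
  have e2 : h * (v * E 0) = 0 := by rw [P.cv, ← mul_assoc, hE74 G.spec, zero_mul]
  have e3 : h * (x * (E 0 * u) + v * E 0 * x) - (x * (E 0 * u) + v * E 0 * x) * h =
      (h * x - x * h) * (E 0 * u) + x * (h * E 0) * u + h * (v * E 0) * x - x * (E 0 * u * h) +
        v * E 0 * (h * x - x * h) - v * (E 0 * h) * x := by noncomm_ring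
  rw [e3, hx.2, hE74 G.spec, Eh74 G.spec, e1, e2]
  simp only [mul_zero, zero_mul, add_zero, sub_zero, smul_mul_assoc, mul_smul_comm, smul_add]

private lemma mul74 (G : Gr L h E Λ) {u v u' v' : Matrix n n ℂ} (P : Pr74 L h E T u v)
    (P' : Pr74 L h E T u' v') : Pr74 L h E T (u * u') (v' * v) where
  cu := by rw [mul_assoc, P'.cu, ← mul_assoc, P.cu, mul_assoc]
  cv := by rw [mul_assoc, P.cv, ← mul_assoc, P'.cv, mul_assoc]
  tu := by rw [← mul_assoc, P.tu, mul_assoc, P'.tu, mul_assoc]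
  tv := by rw [← mul_assoc, P'.tv, mul_assoc, P.tv, mul_assoc]
  mem := by
    intro ν hν x hx
    have h1 := P'.mem ν hν _ (mem74 G P hν hx)
    have e : (x * (E 0 * u) + v * E 0 * x) * (E 0 * u') + v' * E 0 * (x * (E 0 * u) + v * E 0 * x) =
        x * E 0 * (u * E 0) * u' + v * (E 0 * x * E 0) * u' + v' * (E 0 * x * E 0) * u + v' * (E 0 * v) * E 0 * x := by
      noncomm_ring
    have e2 : x * E 0 * (u * E 0) * u' = x * (E 0 * (u * u')) := by
      rw [P.cu]
      calc x * E 0 * (E 0 * u) * u' = x * (E 0 * E 0) * u * u' := by noncomm_ring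
        _ = x * (E 0 * (u * u')) := by rw [ee74 G.spec]; noncomm_ring
    have e3 : v' * (E 0 * v) * E 0 * x = v' * v * E 0 * x := by
      rw [← P.cv]
      calc v' * (v * E 0) * E 0 * x = v' * v * (E 0 * E 0) * x := by noncomm_ring
        _ = v' * v * E 0 * x := by rw [ee74 G.spec]
    rw [e, EE74 G.spec hν hx, e2, e3] at h1
    simpa using h1

private lemma add74 {u v u' v' : Matrix n n ℂ} (P : Pr74 L h E T u v)
    (P' : Pr74 L h E T u' v') : Pr74 L h E T (u + u') (v + v') where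
  cu := by rw [add_mul, P.cu, P'.cu, mul_add]
  cv := by rw [add_mul, P.cv, P'.cv, mul_add]
  tu := by rw [mul_add, P.tu, P'.tu, add_mul]
  tv := by rw [mul_add, P.tv, P'.tv, add_mul]
  mem := by
    intro ν hν x hx
    have := L.add_mem (P.mem ν hν x hx) (P'.mem ν hν x hx)
    have e : x * (E 0 * (u + u')) + (v + v') * E 0 * x =
        x * (E 0 * u) + v * E 0 * x + (x * (E 0 * u') + v' * E 0 * x) := by noncomm_ring
    rwa [e]

private lemma scal74 (U : Un L h E) (c : ℂ) : Pr74 L h E T (c • (1 : Matrix n n ℂ)) (c • (1 : Matrix n n ℂ)) where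
  cu := by simp
  cv := by simp
  tu := by simp
  tv := by simp
  mem := by
    intro ν hν x hx
    have := L.smul_mem c (U ν hν x hx)
    have e : x * (E 0 * (c • (1 : Matrix n n ℂ))) + (c • (1 : Matrix n n ℂ)) * E 0 * x =
        c • (x * E 0 + E 0 * x) := by simp [smul_add]
    rwa [e]

private lemma z74 (G : Gr L h E Λ) (hT : Ck L E T) {z : Matrix n n ℂ} (hz : z ∈ KK L E) :
    Pr74 L h E T z (-z) := by
  have e1 : E 0 * z = z := by
    conv_lhs => rw [← hz.2]
    rw [← mul_assoc, ← mul_assoc, ee74 G.spec]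
    exact hz.2
  have e2 : z * E 0 = z := by
    conv_lhs => rw [← hz.2]
    rw [mul_assoc, ee74 G.spec]
    exact hz.2
  refine ⟨by rw [e1, e2], by rw [neg_mul, mul_neg, e1, e2], hT.2.2 z hz, by rw [mul_neg, neg_mul, hT.2.2 z hz], ?_⟩
  intro ν hν x hx
  have := G.br x hx.1 z hz.1
  have e : x * (E 0 * z) + -z * E 0 * x = x * z - z * x := by
    rw [e1, neg_mul, e2, neg_mul, sub_eq_add_neg]
  rwa [e]

private lemma ex74 (G : Gr L h E Λ) (U : Un L h E) (hT : Ck L E T) {w : Matrix n n ℂ}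
    (hw : w ∈ Algebra.adjoin ℂ (KK L E : Set (Matrix n n ℂ))) :
    (∃ v, Pr74 L h E T w v) ∧ ∃ u, Pr74 L h E T u w := by
  induction hw using Algebra.adjoin_induction with
  | mem z hz =>
    have h1 := z74 G hT hz
    have h2 := z74 G hT ((KK L E).neg_mem hz)
    rw [neg_neg] at h2
    exact ⟨⟨_, h1⟩, ⟨_, h2⟩⟩
  | algebraMap c =>
    rw [Algebra.algebraMap_eq_smul_one]
    exact ⟨⟨_, scal74 U c⟩, ⟨_, scal74 U c⟩⟩
  | add a b _ _ ha hb =>
    obtain ⟨⟨v, hv⟩, ⟨u, hu⟩⟩ := ha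
    obtain ⟨⟨v', hv'⟩, ⟨u', hu'⟩⟩ := hb
    exact ⟨⟨_, add74 hv hv'⟩, ⟨_, add74 hu hu'⟩⟩
  | mul a b _ _ ha hb =>
    obtain ⟨⟨v, hv⟩, ⟨u, hu⟩⟩ := ha
    obtain ⟨⟨v', hv'⟩, ⟨u', hu'⟩⟩ := hb
    exact ⟨⟨_, mul74 G hv hv'⟩, ⟨_, mul74 G hu' hu⟩⟩

private lemma br74 (G : Gr L h E Λ) {a1 a2 b1 b2 : Matrix n n ℂ} (P : Pr74 L h E T a1 a2)
    (Q : Pr74 L h E T b1 b2) {ν : ℝ} (hν : ν ≠ 0) {x y : Matrix n n ℂ} (hx : x ∈ Ld L h ν)
    (hy : y ∈ Ld L h (-ν)) :
    y * (E 0 * (a1 * b2)) * x - x * (E 0 * (b1 * a2)) * y +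
      (a2 * (E 0 * (y * x) * E 0) * b1 - b2 * (E 0 * (x * y) * E 0) * a1) ∈ L := by
  have h1 := G.br _ (mem74 G P (neg_ne_zero.mpr hν) hy).1 _ (mem74 G Q hν hx).1
  have f1 : y * (E 0 * a1) * (b2 * E 0) * x = y * (E 0 * (a1 * b2)) * x := by
    rw [Q.cv]
    calc y * (E 0 * a1) * (E 0 * b2) * x = y * (E 0 * (a1 * E 0)) * b2 * x := by noncomm_ring
      _ = y * ((E 0 * E 0) * a1) * b2 * x := by rw [P.cu]; noncomm_ring
      _ = _ := by rw [ee74 G.spec]; noncomm_ring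
  have f2 : x * (E 0 * b1) * (a2 * E 0) * y = x * (E 0 * (b1 * a2)) * y := by
    rw [P.cv]
    calc x * (E 0 * b1) * (E 0 * a2) * y = x * (E 0 * (b1 * E 0)) * a2 * y := by noncomm_ring
      _ = x * ((E 0 * E 0) * b1) * a2 * y := by rw [Q.cu]; noncomm_ring
      _ = _ := by rw [ee74 G.spec]; noncomm_ring
  have g1 : (E 0 * a1) * x * E 0 = 0 := by
    rw [← P.cu]
    calc a1 * E 0 * x * E 0 = a1 * (E 0 * x * E 0) := by noncomm_ring
      _ = 0 := by rw [EE74 G.spec hν hx, mul_zero]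
  have g2 : E 0 * y * (b2 * E 0) = 0 := by
    rw [Q.cv]
    calc E 0 * y * (E 0 * b2) = (E 0 * y * E 0) * b2 := by noncomm_ring
      _ = 0 := by rw [EE74 G.spec (neg_ne_zero.mpr hν) hy, zero_mul]
  have g3 : (E 0 * b1) * y * E 0 = 0 := by
    rw [← Q.cu]
    calc b1 * E 0 * y * E 0 = b1 * (E 0 * y * E 0) := by noncomm_ring
      _ = 0 := by rw [EE74 G.spec (neg_ne_zero.mpr hν) hy, mul_zero]
  have g4 : E 0 * x * (a2 * E 0) = 0 := by
    rw [P.cv]
    calc E 0 * x * (E 0 * a2) = (E 0 * x * E 0) * a2 := by noncomm_ring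
      _ = 0 := by rw [EE74 G.spec hν hx, zero_mul]
  have e : (y * (E 0 * a1) + a2 * E 0 * y) * (x * (E 0 * b1) + b2 * E 0 * x) -
      (x * (E 0 * b1) + b2 * E 0 * x) * (y * (E 0 * a1) + a2 * E 0 * y) =
      y * ((E 0 * a1) * x * E 0) * b1 + y * (E 0 * a1) * (b2 * E 0) * x + a2 * (E 0 * (y * x) * E 0) * b1 +
        a2 * (E 0 * y * (b2 * E 0)) * x - (x * ((E 0 * b1) * y * E 0) * a1 + x * (E 0 * b1) * (a2 * E 0) * y +
        b2 * (E 0 * (x * y) * E 0) * a1 + b2 * (E 0 * x * (a2 * E 0)) * y) := by noncomm_ring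
  rw [e, g1, g2, g3, g4, f1, f2] at h1
  simp only [mul_zero, zero_mul, zero_add, add_zero] at h1
  convert h1 using 1
  abel

private lemma comm74 {A B C : Matrix n n ℂ} (hA : T * A = A * T) (hB : T * B = B * T) :
    T * (A * C * B) - A * C * B * T = A * (T * C - C * T) * B := by
  calc T * (A * C * B) - A * C * B * T = (T * A) * C * B - A * C * (B * T) := by noncomm_ring
    _ = (A * T) * C * B - A * C * (T * B) := by rw [hA, hB]
    _ = _ := by noncomm_ring

private lemma br2_74 {A X : Matrix n n ℂ} (hA : T * A = A * T) :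
    T * (A * X - X * A) - (A * X - X * A) * T = A * (T * X - X * T) - (T * X - X * T) * A := by
  calc T * (A * X - X * A) - (A * X - X * A) * T = (T * A) * X - T * X * A - A * X * T + X * (A * T) := by
        noncomm_ring
    _ = (A * T) * X - T * X * A - A * X * T + X * (T * A) := by rw [hA]
    _ = _ := by noncomm_ring

/-- M3 -/
theorem Gr.sq (G : Gr L h E Λ) (U : Un L h E) {T : Matrix n n ℂ} (hT : Ck L E T) {ν : ℝ} (hν : ν ≠ 0)
    {x y z w w' : Matrix n n ℂ} (hx : x ∈ Ld L h ν) (hy : y ∈ Ld L h (-ν)) (hz : z ∈ KK L E)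
    (hw : w ∈ Algebra.adjoin ℂ (KK L E : Set (Matrix n n ℂ)))
    (hw' : w' ∈ Algebra.adjoin ℂ (KK L E : Set (Matrix n n ℂ))) :
    z * z * (w * (T * (E 0 * (y * x) * E 0) - E 0 * (y * x) * E 0 * T) * w') =
      w * (T * (E 0 * (y * x) * E 0) - E 0 * (y * x) * E 0 * T) * w' * (z * z) := by
  obtain ⟨_, ⟨w1, P⟩⟩ := ex74 G U hT hw
  obtain ⟨⟨w2, Q⟩, _⟩ := ex74 G U hT hw'
  have Z := z74 G hT hz
  have tz : T * z = z * T := hT.2.2 z hz
  have tzz : T * (z * z) = z * z * T := by rw [← mul_assoc, tz, mul_assoc, tz, mul_assoc]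
  set C := E 0 * (y * x) * E 0 with hC
  set C' := E 0 * (x * y) * E 0 with hC'
  have cE : E 0 * C = C := by rw [hC, ← mul_assoc, ← mul_assoc, ee74 G.spec]
  have Ec : C * E 0 = C := by rw [hC, mul_assoc, ee74 G.spec]
  have cE' : E 0 * C' = C' := by rw [hC', ← mul_assoc, ← mul_assoc, ee74 G.spec]
  have Ec' : C' * E 0 = C' := by rw [hC', mul_assoc, ee74 G.spec]
  -- elements supported on the kernel
  have sup : ∀ a b : Matrix n n ℂ, a * E 0 = E 0 * a → b * E 0 = E 0 * b → ∀ D, E 0 * D = D → D * E 0 = D →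
      E 0 * (a * D * b) = a * D * b ∧ (a * D * b) * E 0 = a * D * b := by
    intro a b ha hb D h1 h2
    constructor
    · calc E 0 * (a * D * b) = (E 0 * a) * D * b := by noncomm_ring
        _ = a * (E 0 * D) * b := by rw [← ha]; noncomm_ring
        _ = _ := by rw [h1]
    · calc (a * D * b) * E 0 = a * D * (b * E 0) := by noncomm_ring
        _ = a * (D * E 0) * b := by rw [hb]; noncomm_ring
        _ = _ := by rw [h2]
  have s1 := sup w w' P.cv Q.cu C cE Ec
  have s2 := sup w2 w1 Q.cv P.cu C' cE' Ec'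
  have ez : E 0 * z = z ∧ z * E 0 = z := by
    constructor
    · conv_lhs => rw [← hz.2]
      rw [← mul_assoc, ← mul_assoc, ee74 G.spec]
      exact hz.2
    · conv_lhs => rw [← hz.2]
      rw [mul_assoc, ee74 G.spec]
      exact hz.2
  set X0 := w * C * w' with hX0
  set X1 := w2 * C' * w1 with hX1
  -- first relation
  have m1 := L.add_mem (br74 G (mul74 G P Z) Q hν hx hy) (br74 G P (mul74 G Q Z) hν hx hy)
  rw [← hC, ← hC'] at m1
  have k1 : (z * X1 - X1 * z) - (z * X0 - X0 * z) ∈ L := by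
    convert m1 using 1
    rw [hX0, hX1]
    noncomm_ring
  have k1' : (z * X1 - X1 * z) - (z * X0 - X0 * z) ∈ KK L E := by
    refine ⟨k1, ?_⟩
    have : E 0 * ((z * X1 - X1 * z) - (z * X0 - X0 * z)) * E 0 =
        (E 0 * z) * (X1 * E 0) - (E 0 * X1) * (z * E 0) - ((E 0 * z) * (X0 * E 0) - (E 0 * X0) * (z * E 0)) := by
      noncomm_ring
    rw [this, ez.1, ez.2, s1.1, s1.2, s2.1, s2.2]
  -- second relation
  have m2 := L.sub_mem (br74 G (mul74 G P (mul74 G Z Z)) Q hν hx hy) (br74 G P (mul74 G Q (mul74 G Z Z)) hν hx hy)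
  rw [← hC, ← hC'] at m2
  have k2 : (z * z * X0 - X0 * (z * z)) + (z * z * X1 - X1 * (z * z)) ∈ L := by
    convert m2 using 1
    rw [hX0, hX1]
    noncomm_ring
  have k2' : (z * z * X0 - X0 * (z * z)) + (z * z * X1 - X1 * (z * z)) ∈ KK L E := by
    refine ⟨k2, ?_⟩
    have : E 0 * ((z * z * X0 - X0 * (z * z)) + (z * z * X1 - X1 * (z * z))) * E 0 =
        (E 0 * z) * z * (X0 * E 0) - (E 0 * X0) * z * (z * E 0) +
          ((E 0 * z) * z * (X1 * E 0) - (E 0 * X1) * z * (z * E 0)) := by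
      noncomm_ring
    rw [this, ez.1, ez.2, s1.1, s1.2, s2.1, s2.2]
    noncomm_ring
  have t1 := hT.2.2 _ k1'
  have t2 := hT.2.2 _ k2'
  have d0 : T * X0 - X0 * T = w * (T * C - C * T) * w' := comm74 P.tv Q.tu
  set X := w * (T * C - C * T) * w' with hX
  set X' := T * X1 - X1 * T with hX'
  have r1 : z * X' - X' * z = z * X - X * z := by
    have e1 := br2_74 (T := T) (A := z) (X := X0) tz
    have e2 := br2_74 (T := T) (A := z) (X := X1) tz
    rw [d0] at e1
    rw [← hX'] at e2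
    rw [← e1, ← e2, ← sub_eq_zero]
    rw [← sub_eq_zero] at t1
    rw [← t1]
    noncomm_ring
  have r2 : (z * z * X - X * (z * z)) + (z * z * X' - X' * (z * z)) = 0 := by
    have e1 := br2_74 (T := T) (A := z * z) (X := X0) tzz
    have e2 := br2_74 (T := T) (A := z * z) (X := X1) tzz
    rw [d0] at e1
    rw [← hX'] at e2
    rw [← e1, ← e2]
    rw [← sub_eq_zero] at t2
    rw [← t2]
    noncomm_ring
  have r3 : z * z * X' - X' * (z * z) = z * z * X - X * (z * z) := by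
    calc z * z * X' - X' * (z * z) = z * (z * X' - X' * z) + (z * X' - X' * z) * z := by noncomm_ring
      _ = z * (z * X - X * z) + (z * X - X * z) * z := by rw [r1]
      _ = _ := by noncomm_ring
  rw [r3] at r2
  have r4 : (2 : ℂ) • (z * z * X - X * (z * z)) = 0 := by
    rw [two_smul]
    exact r2
  rcases smul_eq_zero.mp r4 with h5 | h5
  · norm_num at h5
  · exact sub_eq_zero.mp h5

end GH
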